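import Pool.Agent.W525.CB.Stm

/-!
# Algebraic independence of the coordinates (part CB-AI)
-/

set_option autoImplicit false

namespace Pool.Agent.W369.CBAI

open Pool.Agent.W525.CB

open scoped IntermediateField.algebraAdjoinAdjoin

variable {n : ℕ} {k E : Type} [Field k] [Field E] [Algebra k E]

/-- a finite family of `2 n + 2` elements over which all the coordinates are algebraic is
algebraically independent -/
theorem indep_of {ι : Type} [Finite ι] (x y : Fin (n + 3) → E) (h : EDat n k E x y) (z : ι → E)
    (hι : Cardinal.mk ι ≤ Cardinal.mk (Fin (n + 1) ⊕ Fin (n + 1)))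
    (hx : ∀ i, IsAlgebraic (IntermediateField.adjoin k (Set.range z)) (x i))
    (hy : ∀ i, IsAlgebraic (IntermediateField.adjoin k (Set.range z)) (y i)) :
    AlgebraicIndependent k z := by
  have hle : IntermediateField.adjoin k (Set.range x ∪ Set.range y) ≤
      (algebraicClosure (IntermediateField.adjoin k (Set.range z)) E).restrictScalars k := by
    rw [IntermediateField.adjoin_le_iff]
    rintro e (⟨i, rfl⟩ | ⟨i, rfl⟩)
    · exact (mem_algebraicClosure_iff).2 (hx i)
    · exact (mem_algebraicClosure_iff).2 (hy i)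
  rw [h.gen] at hle
  have halg : Algebra.IsAlgebraic (IntermediateField.adjoin k (Set.range z)) E := by
    refine ⟨fun e => ?_⟩
    exact (mem_algebraicClosure_iff).1 (hle (IntermediateField.mem_top (x := e)))
  have halg2 : Algebra.IsAlgebraic (Algebra.adjoin k (Set.range z)) E :=
    (IsFractionRing.comap_isAlgebraic_iff (A := Algebra.adjoin k (Set.range z))
      (K := IntermediateField.adjoin k (Set.range z)) (C := E)).2 halg
  have htr : Cardinal.mk ι ≤ Algebra.trdeg k E := hι.trans h.ind.cardinalMk_le_trdeg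
  exact (Algebra.IsAlgebraic.isTranscendenceBasis_of_le_trdeg_of_finite k z htr).1

/-- the equation of the Fermat hypersurface -/
theorem fermat_alg (F : IntermediateField k E) (x y : Fin (n + 3) → E) (h : EDat n k E x y)
    (σ : Equiv.Perm (Fin (n + 3))) (hx : ∀ i : Fin (n + 2), IsAlgebraic F (x (σ i.succ))) :
    ∀ i, IsAlgebraic F (x i) := by
  have h0 : IsAlgebraic F (x (σ 0)) := by
    have hs : ∑ i, x (σ i) ^ (2 * n + 5) = 0 := by
      rw [Equiv.sum_comp σ (fun i => x i ^ (2 * n + 5))]
      exact h.dat.fermat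
    rw [Fin.sum_univ_succ] at hs
    have h2 : x (σ 0) ^ (2 * n + 5) = -∑ i : Fin (n + 2), x (σ i.succ) ^ (2 * n + 5) :=
      eq_neg_of_add_eq_zero_left hs
    have h3 : IsAlgebraic F (x (σ 0) ^ (2 * n + 5)) := by
      rw [h2]
      refine IsAlgebraic.neg ?_
      refine (mem_algebraicClosure_iff (F := F) (E := E)).1 (sum_mem fun i _ => ?_)
      exact (mem_algebraicClosure_iff).2 ((hx i).pow _)
    exact h3.of_pow (by omega)
  intro i
  have h4 : ∀ j, IsAlgebraic F (x (σ j)) := fun j => Fin.cases h0 hx j
  have := h4 (σ.symm i)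
  rwa [Equiv.apply_symm_apply] at this

theorem main : S_FF → S_TR → S_REL → S_AI := by
  intro hFF _ hREL n k E _ _ _ _ _ _ x y hn h σ
  have : CharP E (n + 2) := charP_of_injective_algebraMap (algebraMap k E).injective (n + 2)
  constructor
  · set z : Fin (n + 1) ⊕ Fin (n + 1) → E := Sum.elim (fun i : Fin (n + 1) => x (σ i.succ.succ))
      (fun i : Fin (n + 1) => tt x y σ i.succ.succ) with hz
    set F := IntermediateField.adjoin k (Set.range z) with hF
    have hbase : ∀ i, IsAlgebraic F (z i) := fun i =>
      isAlgebraic_algebraMap (A := E) (⟨z i, IntermediateField.subset_adjoin _ _ ⟨i, rfl⟩⟩ : F)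
    have hx2 : ∀ i : Fin (n + 1), IsAlgebraic F (x (σ i.succ.succ)) := fun i => hbase (Sum.inl i)
    have ht2 : ∀ i : Fin (n + 1), IsAlgebraic F (tt x y σ i.succ.succ) := fun i =>
      hbase (Sum.inr i)
    have hu : uu x y (σ 0) (σ 1) ≠ 0 :=
      h.dat.nu _ _ (fun e => by simpa using σ.injective e)
    have ht0 : tt x y σ 0 = 0 := by
      unfold tt uu
      rw [sub_self, zero_div]
    have ht1 : tt x y σ 1 = 1 := by
      unfold tt
      exact div_self hu
    have ht : ∀ i, IsAlgebraic F (tt x y σ i) := by
      intro i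
      refine Fin.cases ?_ (fun j => Fin.cases ?_ (fun l => ht2 l) j) i
      · rw [ht0]
        exact isAlgebraic_zero
      · have e1 : (Fin.succ 0 : Fin (n + 3)) = 1 := rfl
        rw [e1, ht1]
        exact isAlgebraic_one
    have hrel := (hREL n E x y hn h.dat σ).2.2.1
    have hx0 : x (σ 0) ≠ 0 := h.dat.nx _
    have hx1 : x (σ 1) = -∑ i : Fin (n + 1), x (σ i.succ.succ) * tt x y σ i.succ.succ ^ (n + 2) := by
      have h5 : x (σ 1) + ∑ i : Fin (n + 1), x (σ i.succ.succ) * tt x y σ i.succ.succ ^ (n + 2) = 0 := by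
        have h6 : x (σ 0) * (ss x σ 1 + ∑ i : Fin (n + 1), ss x σ i.succ.succ *
            tt x y σ i.succ.succ ^ (n + 2)) = 0 := by rw [hrel, mul_zero]
        rw [mul_add, Finset.mul_sum] at h6
        have h7 : x (σ 0) * ss x σ 1 = x (σ 1) := by
          unfold ss
          field_simp
        rw [h7] at h6
        rw [← h6]
        congr 1
        refine Finset.sum_congr rfl fun i _ => ?_
        unfold ss
        field_simp
      exact eq_neg_of_add_eq_zero_left h5
    have hx1a : IsAlgebraic F (x (σ 1)) := by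
      rw [hx1]
      refine IsAlgebraic.neg ?_
      refine (mem_algebraicClosure_iff (F := F) (E := E)).1 (sum_mem fun i _ => ?_)
      exact (mem_algebraicClosure_iff).2 ((hx2 i).mul ((ht2 i).pow _))
    have hxs : ∀ i : Fin (n + 2), IsAlgebraic F (x (σ i.succ)) := by
      intro i
      refine Fin.cases ?_ (fun j => hx2 j) i
      exact hx1a
    have hx := fermat_alg F x y h σ hxs
    refine indep_of x y h z le_rfl hx ?_
    intro i
    have hyi : y i ∈ FX k x y := IntermediateField.subset_adjoin _ _ (Or.inr ⟨i, rfl⟩)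
    rw [← (hFF n k E x y hn h).1 σ] at hyi
    have hle : IntermediateField.adjoin k (Set.range (ss x σ) ∪ Set.range (tt x y σ)) ≤
        (algebraicClosure F E).restrictScalars k := by
      rw [IntermediateField.adjoin_le_iff]
      rintro e (⟨j, rfl⟩ | ⟨j, rfl⟩)
      · refine (mem_algebraicClosure_iff).2 ?_
        unfold ss
        rw [div_eq_mul_inv]
        exact (hx _).mul (hx _).inv
      · exact (mem_algebraicClosure_iff).2 (ht j)
    exact (mem_algebraicClosure_iff).1 (hle hyi)
  · set z : Fin (n + 2) ⊕ Fin n → E := Sum.elim (fun i : Fin (n + 2) => x (σ i.succ))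
      (fun i : Fin n => y i.castSucc.succ.succ) with hz
    set F := IntermediateField.adjoin k (Set.range z) with hF
    have hbase : ∀ i, IsAlgebraic F (z i) := fun i =>
      isAlgebraic_algebraMap (A := E) (⟨z i, IntermediateField.subset_adjoin _ _ ⟨i, rfl⟩⟩ : F)
    have hx := fermat_alg F x y h σ (fun i => hbase (Sum.inl i))
    have hy2 : ∀ i : Fin n, IsAlgebraic F (y i.castSucc.succ.succ) := fun i => hbase (Sum.inr i)
    have hy0 : IsAlgebraic F (y 0) := by rw [h.y0]; exact isAlgebraic_zero
    have hy1 : IsAlgebraic F (y 1) := by rw [h.y1]; exact isAlgebraic_one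
    have hyl : IsAlgebraic F (y (Fin.last (n + 2))) := by
      have ht := h.dat.tang
      rw [Fin.sum_univ_castSucc] at ht
      have h1 : x (Fin.last (n + 2)) * y (Fin.last (n + 2)) ^ (n + 2) =
          -∑ i : Fin (n + 2), x i.castSucc * y i.castSucc ^ (n + 2) :=
        eq_neg_of_add_eq_zero_right ht
      have h2 : y (Fin.last (n + 2)) ^ (n + 2) =
          (x (Fin.last (n + 2)))⁻¹ * -∑ i : Fin (n + 2), x i.castSucc * y i.castSucc ^ (n + 2) := by
        rw [← h1, inv_mul_cancel_left₀ (h.dat.nx _)]
      have hyc : ∀ i : Fin (n + 2), IsAlgebraic F (y i.castSucc) := by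
        intro i
        refine Fin.cases ?_ (fun j => Fin.cases ?_ (fun l => ?_) j) i
        · exact hy0
        · exact hy1
        · exact hy2 l
      have h3 : IsAlgebraic F (y (Fin.last (n + 2)) ^ (n + 2)) := by
        rw [h2]
        refine (hx _).inv.mul (IsAlgebraic.neg ?_)
        refine (mem_algebraicClosure_iff (F := F) (E := E)).1 (sum_mem fun i _ => ?_)
        exact (mem_algebraicClosure_iff).2 ((hx _).mul ((hyc i).pow _))
      exact h3.of_pow (by omega)
    have hy : ∀ i, IsAlgebraic F (y i) := by
      intro i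
      refine Fin.lastCases hyl (fun j => ?_) i
      refine Fin.cases hy0 (fun l => Fin.cases ?_ (fun m => ?_) l) j
      · exact hy1
      · exact hy2 m
    have hi := indep_of x y h z (by
      simp only [Cardinal.mk_sum, Cardinal.mk_fin, Cardinal.lift_natCast]
      norm_cast
      omega) hx hy
    exact hi.comp Sum.inl Sum.inl_injective

end Pool.Agent.W369.CBAI
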